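import Mathlib

/-!
Haar null sets of the `ℓ`-adic integers are preserved under the preimages of the affine maps `x ↦ u x + v`, `u ≠ 0`.
-/

set_option autoImplicit false

open Filter Topology MeasureTheory

namespace Pool.Agent.V1213.TA

section
variable {ℓ : ℕ} [Fact ℓ.Prime] [MeasurableSpace ℤ_[ℓ]] [BorelSpace ℤ_[ℓ]]

lemma emb {u : ℤ_[ℓ]} (hu : u ≠ 0) : MeasurableEmbedding (fun x : ℤ_[ℓ] => u * x) := by
  have h1 : Continuous (fun x : ℤ_[ℓ] => u * x) := continuous_const.mul continuous_id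
  have h2 : Function.Injective (fun x : ℤ_[ℓ] => u * x) := mul_right_injective₀ hu
  exact (h1.isClosedEmbedding h2).measurableEmbedding

lemma open_range {u : ℤ_[ℓ]} (hu : u ≠ 0) : IsOpen (Set.range (fun x : ℤ_[ℓ] => u * x)) := by
  have h1 : Set.range (fun x : ℤ_[ℓ] => u * x) = ((Ideal.span {(ℓ : ℤ_[ℓ]) ^ u.valuation} : Ideal ℤ_[ℓ]) : Set ℤ_[ℓ]) := by
    ext y
    rw [Set.mem_range, SetLike.mem_coe, Ideal.mem_span_singleton]
    have h2 := PadicInt.unitCoeff_spec hu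
    constructor
    · rintro ⟨x, rfl⟩
      refine ⟨(PadicInt.unitCoeff hu : ℤ_[ℓ]) * x, ?_⟩
      calc u * x = ((PadicInt.unitCoeff hu : ℤ_[ℓ]) * (ℓ : ℤ_[ℓ]) ^ u.valuation) * x := by rw [← h2]
        _ = _ := by ring
    · rintro ⟨z, hz⟩
      refine ⟨((PadicInt.unitCoeff hu)⁻¹ : (ℤ_[ℓ])ˣ) * z, ?_⟩
      have : (PadicInt.unitCoeff hu : ℤ_[ℓ]) * ((PadicInt.unitCoeff hu)⁻¹ : (ℤ_[ℓ])ˣ) = 1 := Units.mul_inv _
      calc u * (((PadicInt.unitCoeff hu)⁻¹ : (ℤ_[ℓ])ˣ) * z) =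
          ((PadicInt.unitCoeff hu : ℤ_[ℓ]) * (ℓ : ℤ_[ℓ]) ^ u.valuation) *
            (((PadicInt.unitCoeff hu)⁻¹ : (ℤ_[ℓ])ˣ) * z) := by rw [← h2]
        _ = y := by
          rw [hz]
          linear_combination (ℓ : ℤ_[ℓ]) ^ u.valuation * z * this
  rw [h1]
  have h3 : ((Ideal.span {(ℓ : ℤ_[ℓ]) ^ u.valuation} : Ideal ℤ_[ℓ]) : Set ℤ_[ℓ]) =
      Metric.closedBall 0 ((ℓ : ℝ) ^ (-(u.valuation : ℤ))) := by
    ext y
    rw [SetLike.mem_coe, ← PadicInt.norm_le_pow_iff_mem_span_pow, Metric.mem_closedBall, dist_zero_right]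
  rw [h3]
  refine IsUltrametricDist.isOpen_closedBall _ ?_
  have : (0 : ℝ) < ℓ := by exact_mod_cast (Fact.out : ℓ.Prime).pos
  positivity

/-- preimages of null sets under multiplication -/
theorem null_mul (μ : Measure ℤ_[ℓ]) [μ.IsAddHaarMeasure] {u : ℤ_[ℓ]} (hu : u ≠ 0) {s : Set ℤ_[ℓ]}
    (hs : μ s = 0) : μ ((fun x : ℤ_[ℓ] => u * x) ⁻¹' s) = 0 := by
  have he := emb (ℓ := ℓ) hu
  set ν : Measure ℤ_[ℓ] := Measure.comap (fun x : ℤ_[ℓ] => u * x) μ with hν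
  have hap : ∀ t : Set ℤ_[ℓ], ν t = μ ((fun x : ℤ_[ℓ] => u * x) '' t) := fun t => he.comap_apply μ t
  haveI : IsFiniteMeasure ν := ⟨by rw [hap]; exact (measure_lt_top μ _)⟩
  haveI : ν.IsAddLeftInvariant := by
    refine ⟨fun g => ?_⟩
    ext t ht
    rw [Measure.map_apply (measurable_const_add g) ht, hap, hap]
    have h1 : (fun x : ℤ_[ℓ] => u * x) '' ((fun x => g + x) ⁻¹' t) =
        (fun x => u * g + x) ⁻¹' ((fun x : ℤ_[ℓ] => u * x) '' t) := by
      ext y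
      simp only [Set.mem_image, Set.mem_preimage]
      constructor
      · rintro ⟨x, hx, rfl⟩
        exact ⟨g + x, hx, by ring⟩
      · rintro ⟨x, hx, hxy⟩
        refine ⟨x - g, by simpa using hx, ?_⟩
        rw [mul_sub, hxy]
        ring
    rw [h1, measure_preimage_add]
  have h2 := Measure.isAddLeftInvariant_eq_smul ν μ
  set c := Measure.addHaarScalarFactor ν μ with hc
  have hc0 : c ≠ 0 := by
    intro h
    rw [h, zero_smul] at h2
    have h3 : ν Set.univ = 0 := by rw [h2]; rfl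
    rw [hap, Set.image_univ] at h3
    exact (open_range (ℓ := ℓ) hu).measure_ne_zero μ ⟨0, 0, by simp⟩ h3
  have h4 : ν ((fun x : ℤ_[ℓ] => u * x) ⁻¹' s) = 0 := by
    rw [hap]
    exact measure_mono_null (Set.image_preimage_subset _ _) hs
  rw [h2, Measure.smul_apply, smul_eq_zero] at h4
  exact h4.resolve_left hc0

/-- a property of almost all `x` holds for `u x + v`, for almost all `x` and all `(u, v)` in a countable set -/
theorem ae_aff (μ : Measure ℤ_[ℓ]) [μ.IsAddHaarMeasure] {P : ℤ_[ℓ] → Prop} (hP : ∀ᵐ x ∂μ, P x)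
    {u : ℤ_[ℓ]} (hu : u ≠ 0) (v : ℤ_[ℓ]) : ∀ᵐ x ∂μ, P (u * x + v) := by
  have h1 : ∀ᵐ x ∂μ, P (x + v) := by
    have h2 : MeasurePreserving (fun x : ℤ_[ℓ] => x + v) μ μ := measurePreserving_add_right μ v
    exact h2.quasiMeasurePreserving.ae hP
  rw [ae_iff] at h1 ⊢
  exact null_mul μ hu h1

end

end Pool.Agent.V1213.TA
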