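import Pool.Agent.W66.LO
import Pool.Agent.TH888.R.Mean
import Pool.Agent.TH888.R.Inv

/-!
The mean of the indicator of a prime rough part over the reduced residues below `b ^ q`, with an error term.
The two counting lemmas are `AA_upper`, `AA_lower` of `Pool.Agent.W66.LN` (starting files) with explicit conditions.
-/

set_option autoImplicit false

open Filter Topology
open scoped Real

namespace Pool.Agent.V1213.TA

open Pool.Agent.W66
open Pool.Agent.W66L
open Pool.Agent.TH888.R (wt wt_nonneg VV_rate ZZ_rate)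
open Pool.Agent.H305R2 (roughPart SM SM_pos SMz mem_SMz ZZ VV sum_rough_eq sum_le_VV tail_le
  ZZ_le_exp ZZ_nonneg VV_nonneg VV_tendsto primesBelow_succ_eq inv_le_rpow hasSum_ZZ sum_le_ZZ log_nat_tendsto)

lemma AA_up {b : ℕ} (hb : 2 ≤ b) {δ : ℝ} (hδ : 0 < δ) (hδ1 : δ < 1 / 4) {q : ℕ} (h2 : b ≤ q)
    (hX3 : 3 ≤ δ * (Real.log b * q))
    (hx0 : ∀ x : ℝ, Real.exp ((1 - 2 * δ) * (Real.log b * q)) ≤ x →
      (Nat.primeCounting ⌊x⌋₊ : ℝ) * Real.log x < (1 + δ) * x) :
    AA b q ≤ (b : ℝ) ^ q * ((1 + δ) / ((1 - 2 * δ) * (Real.log b * q)) * VB b q +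
      Real.exp (-(δ * (Real.log b * q) / 2)) * ZZ q) := by
  set lb := Real.log b with hlb
  have hlb0 : 0 < lb := Real.log_pos (by exact_mod_cast hb)
  have hq0 : (0 : ℝ) < q := by exact_mod_cast (by omega : 0 < q)
  have hlq : 0 < lb * q := by positivity
  set X := b ^ q - 1 with hX
  have hbr : (2 : ℝ) ≤ b := by exact_mod_cast hb
  have hbq : (b : ℝ) ^ q = Real.exp (lb * q) := by
    rw [mul_comm, Real.exp_nat_mul, hlb, Real.exp_log (by linarith)]
  have hXr : (X : ℝ) = (b : ℝ) ^ q - 1 := by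
    rw [hX, Nat.cast_sub (Nat.one_le_pow _ _ (by omega))]
    push_cast
    rfl
  have hXle : (X : ℝ) ≤ (b : ℝ) ^ q := by linarith
  have hXnn : (0 : ℝ) ≤ X := Nat.cast_nonneg _
  set S := Real.exp (δ * (lb * q)) with hS
  have hS0 : 0 < S := Real.exp_pos _
  have hS1 : 1 ≤ S := Real.one_le_exp (by linarith)
  rw [AA_eq hb h2, ← Finset.sum_filter_add_sum_filter_not (SMz q (X : ℝ)) (fun s : ℕ => (s : ℝ) ≤ S),
    mul_add]
  have hF : ∀ n ∈ (SMz q (X : ℝ)).filter (fun s : ℕ => (s : ℝ) ≤ S), n ∈ SM q := by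
    intro n hn
    rw [Finset.mem_filter, mem_SMz hXnn] at hn
    exact hn.1.1
  apply add_le_add
  · have hterm : ∀ s ∈ (SMz q (X : ℝ)).filter (fun s : ℕ => (s : ℝ) ≤ S),
        (if s.Coprime b then (1 : ℝ) else 0) *
          (((Finset.Ioc 0 (X / s)).filter (fun l => l.Prime ∧ q < l)).card : ℝ) ≤
        (b : ℝ) ^ q * ((1 + δ) / ((1 - 2 * δ) * (lb * q))) * copHom b s := by
      intro s hs
      rw [Finset.mem_filter, mem_SMz hXnn] at hs
      obtain ⟨⟨hs1, _⟩, hsS⟩ := hs
      have hs0 : 0 < s := SM_pos hs1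
      have hs0' : (0 : ℝ) < s := by exact_mod_cast hs0
      have hs1' : (1 : ℝ) ≤ s := by exact_mod_cast hs0
      rw [copHom_apply]
      by_cases hc : s.Coprime b
      · rw [if_pos hc, if_pos hc, one_mul]
        refine (card_inner_le _ _).trans ?_
        set x := (X : ℝ) / s with hx
        have hfl : X / s = ⌊x⌋₊ := by rw [hx, Nat.floor_div_eq_div]
        have hxlow : Real.exp ((1 - 2 * δ) * (lb * q)) ≤ x := by
          rw [hx, le_div_iff₀ hs0', hXr, hbq]
          have e1 : Real.exp (lb * q) = Real.exp ((1 - 2 * δ) * (lb * q)) *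
              (Real.exp (δ * (lb * q)) * Real.exp (δ * (lb * q))) := by
            rw [← Real.exp_add, ← Real.exp_add]; ring_nf
          rw [e1, ← hS]
          have e2 : 1 ≤ Real.exp ((1 - 2 * δ) * (lb * q)) := Real.one_le_exp (by
            apply mul_nonneg (by linarith) hlq.le)
          have e3 : 4 ≤ S := by
            have := Real.add_one_le_exp (δ * (lb * q))
            linarith
          have e4 : Real.exp ((1 - 2 * δ) * (lb * q)) * s ≤ Real.exp ((1 - 2 * δ) * (lb * q)) * S :=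
            mul_le_mul_of_nonneg_left hsS (Real.exp_pos _).le
          have e5 : 1 ≤ Real.exp ((1 - 2 * δ) * (lb * q)) * S := by nlinarith
          have e6 : Real.exp ((1 - 2 * δ) * (lb * q)) * S * 4 ≤
              Real.exp ((1 - 2 * δ) * (lb * q)) * S * S :=
            mul_le_mul_of_nonneg_left e3 (by positivity)
          nlinarith
        have hx0' : 0 < x := lt_of_lt_of_le (Real.exp_pos _) hxlow
        have hlogx : (1 - 2 * δ) * (lb * q) ≤ Real.log x := by
          rw [Real.le_log_iff_exp_le hx0']; exact hxlow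
        have hpos : 0 < (1 - 2 * δ) * (lb * q) := mul_pos (by linarith) hlq
        have h3 := hx0 x hxlow
        have h4 : (Nat.primeCounting (X / s) : ℝ) ≤ (1 + δ) * x / ((1 - 2 * δ) * (lb * q)) := by
          rw [hfl, le_div_iff₀ hpos]
          have : (Nat.primeCounting ⌊x⌋₊ : ℝ) * ((1 - 2 * δ) * (lb * q)) ≤
            (Nat.primeCounting ⌊x⌋₊ : ℝ) * Real.log x := mul_le_mul_of_nonneg_left hlogx (by positivity)
          linarith
        refine h4.trans ?_
        have h5 : x ≤ (b : ℝ) ^ q * (s : ℝ)⁻¹ := by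
          rw [hx, div_eq_mul_inv]
          exact mul_le_mul_of_nonneg_right hXle (by positivity)
        calc (1 + δ) * x / ((1 - 2 * δ) * (lb * q)) ≤
            (1 + δ) * ((b : ℝ) ^ q * (s : ℝ)⁻¹) / ((1 - 2 * δ) * (lb * q)) := by gcongr
          _ = _ := by ring
      · rw [if_neg hc, if_neg hc]; simp
    refine (Finset.sum_le_sum hterm).trans ?_
    rw [← Finset.mul_sum]
    have h3 := sum_le_VB b q _ hF
    have hpos : 0 < (1 - 2 * δ) * (lb * q) := mul_pos (by linarith) hlq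
    calc (b : ℝ) ^ q * ((1 + δ) / ((1 - 2 * δ) * (lb * q))) *
          ∑ s ∈ (SMz q (X : ℝ)).filter (fun s : ℕ => (s : ℝ) ≤ S), copHom b s ≤
        (b : ℝ) ^ q * ((1 + δ) / ((1 - 2 * δ) * (lb * q))) * VB b q := by gcongr
      _ = _ := by ring
  · have hterm : ∀ s ∈ (SMz q (X : ℝ)).filter (fun s : ℕ => ¬ (s : ℝ) ≤ S),
        (if s.Coprime b then (1 : ℝ) else 0) *
          (((Finset.Ioc 0 (X / s)).filter (fun l => l.Prime ∧ q < l)).card : ℝ) ≤
        (b : ℝ) ^ q * (s : ℝ)⁻¹ := by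
      intro s _
      have h3 : (((Finset.Ioc 0 (X / s)).filter (fun l => l.Prime ∧ q < l)).card : ℝ) ≤
          (X : ℝ) * (s : ℝ)⁻¹ := by
        have h4 : ((Finset.Ioc 0 (X / s)).filter (fun l => l.Prime ∧ q < l)).card ≤ X / s := by
          refine (Finset.card_filter_le _ _).trans ?_
          rw [Nat.card_Ioc, Nat.sub_zero]
        rw [← div_eq_mul_inv]
        exact le_trans (by exact_mod_cast h4) Nat.cast_div_le
      have h5 : (if s.Coprime b then (1 : ℝ) else 0) ≤ 1 := by split_ifs <;> norm_num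
      have h6 : (0 : ℝ) ≤ (if s.Coprime b then (1 : ℝ) else 0) := by split_ifs <;> norm_num
      calc _ ≤ 1 * ((X : ℝ) * (s : ℝ)⁻¹) := mul_le_mul h5 h3 (by positivity) (by norm_num)
        _ ≤ _ := by
          rw [one_mul]
          exact mul_le_mul_of_nonneg_right hXle (by positivity)
    refine (Finset.sum_le_sum hterm).trans ?_
    rw [← Finset.mul_sum]
    apply mul_le_mul_of_nonneg_left _ (by positivity)
    have h3 := tail_le q hS0 ((SMz q (X : ℝ)).filter (fun s : ℕ => ¬ (s : ℝ) ≤ S)) (by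
      intro n hn
      rw [Finset.mem_filter, mem_SMz hXnn] at hn
      exact ⟨hn.1.1, (not_le.1 hn.2).le⟩)
    refine h3.trans (le_of_eq ?_)
    rw [hS, ← Real.exp_mul]
    ring_nf

lemma AA_lo {b : ℕ} (hb : 2 ≤ b) {δ : ℝ} (hδ : 0 < δ) (hδ1 : δ < 1 / 4) {q : ℕ} (h2 : b ≤ q)
    (hX3 : 3 ≤ δ * (Real.log b * q)) (hXδ : 1 / δ ≤ δ * (Real.log b * q))
    (hx0 : ∀ x : ℝ, Real.exp ((1 - 2 * δ) * (Real.log b * q)) ≤ x →
      (1 - δ) * x < (Nat.primeCounting ⌊x⌋₊ : ℝ) * Real.log x) :
    (b : ℝ) ^ q * ((1 - δ) ^ 2 / (Real.log b * q) *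
      (VB b q - Real.exp (-(δ * (Real.log b * q) / 2)) * ZZ q) -
      q * Real.exp (-((1 - δ) * (Real.log b * q)))) ≤ AA b q := by
  set lb := Real.log b with hlb
  have hlb0 : 0 < lb := Real.log_pos (by exact_mod_cast hb)
  have hq0 : (0 : ℝ) < q := by exact_mod_cast (by omega : 0 < q)
  have hlq : 0 < lb * q := by positivity
  set X := b ^ q - 1 with hX
  have hbr : (2 : ℝ) ≤ b := by exact_mod_cast hb
  have hbq : (b : ℝ) ^ q = Real.exp (lb * q) := by
    rw [mul_comm, Real.exp_nat_mul, hlb, Real.exp_log (by linarith)]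
  have hXr : (X : ℝ) = (b : ℝ) ^ q - 1 := by
    rw [hX, Nat.cast_sub (Nat.one_le_pow _ _ (by omega))]
    push_cast
    rfl
  have hbig : 1 / δ ≤ (b : ℝ) ^ q := by
    rw [hbq]
    have e1 := Real.add_one_le_exp (lb * q)
    have e2 : δ * (lb * q) ≤ 1 * (lb * q) := mul_le_mul_of_nonneg_right (by linarith) hlq.le
    linarith
  have hXge : (1 - δ) * (b : ℝ) ^ q ≤ X := by
    rw [hXr]
    rw [div_le_iff₀ hδ] at hbig
    linarith
  have hXnn : (0 : ℝ) ≤ X := Nat.cast_nonneg _
  have hXle : (X : ℝ) ≤ (b : ℝ) ^ q := by linarith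
  set S := Real.exp (δ * (lb * q)) with hS
  have hS0 : 0 < S := Real.exp_pos _
  have hSX : S ≤ X := by
    refine le_trans ?_ hXge
    rw [hbq]
    have e1 : Real.exp (lb * q) = Real.exp ((1 - δ) * (lb * q)) * S := by
      rw [hS, ← Real.exp_add]; ring_nf
    rw [e1]
    have e2 : 2 ≤ Real.exp ((1 - δ) * (lb * q)) := by
      have := Real.add_one_le_exp ((1 - δ) * (lb * q))
      have e3 : δ * (lb * q) ≤ (1 - δ) * (lb * q) := mul_le_mul_of_nonneg_right (by linarith) hlq.le
      linarith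
    nlinarith
  rw [AA_eq hb h2]
  have hsub : SMz q S ⊆ SMz q (X : ℝ) := by
    intro n hn
    rw [mem_SMz hS0.le] at hn
    rw [mem_SMz hXnn]
    exact ⟨hn.1, hn.2.trans hSX⟩
  refine le_trans ?_ (Finset.sum_le_sum_of_subset_of_nonneg hsub fun i _ _ => by
    split_ifs <;> positivity)
  have hterm : ∀ s ∈ SMz q S, (b : ℝ) ^ q * ((1 - δ) ^ 2 / (lb * q)) * copHom b s - q ≤
      (if s.Coprime b then (1 : ℝ) else 0) *
        (((Finset.Ioc 0 (X / s)).filter (fun l => l.Prime ∧ q < l)).card : ℝ) := by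
    intro s hs
    rw [mem_SMz hS0.le] at hs
    obtain ⟨hs1, hsS⟩ := hs
    have hs0 : 0 < s := SM_pos hs1
    have hs0' : (0 : ℝ) < s := by exact_mod_cast hs0
    have hs1' : (1 : ℝ) ≤ s := by exact_mod_cast hs0
    rw [copHom_apply]
    by_cases hc : s.Coprime b
    · rw [if_pos hc, if_pos hc, one_mul]
      refine le_trans ?_ (le_card_inner _ _)
      set x := (X : ℝ) / s with hx
      have hfl : X / s = ⌊x⌋₊ := by rw [hx, Nat.floor_div_eq_div]
      have hxlow : Real.exp ((1 - 2 * δ) * (lb * q)) ≤ x := by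
        rw [hx, le_div_iff₀ hs0', hXr, hbq]
        have e1 : Real.exp (lb * q) = Real.exp ((1 - 2 * δ) * (lb * q)) *
            (Real.exp (δ * (lb * q)) * Real.exp (δ * (lb * q))) := by
          rw [← Real.exp_add, ← Real.exp_add]; ring_nf
        rw [e1, ← hS]
        have e2 : 1 ≤ Real.exp ((1 - 2 * δ) * (lb * q)) := Real.one_le_exp (by
          apply mul_nonneg (by linarith) hlq.le)
        have e3 : 4 ≤ S := by
          have := Real.add_one_le_exp (δ * (lb * q))
          linarith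
        have e4 : Real.exp ((1 - 2 * δ) * (lb * q)) * s ≤ Real.exp ((1 - 2 * δ) * (lb * q)) * S :=
          mul_le_mul_of_nonneg_left hsS (Real.exp_pos _).le
        have e5 : 1 ≤ Real.exp ((1 - 2 * δ) * (lb * q)) * S := by nlinarith
        have e6 : Real.exp ((1 - 2 * δ) * (lb * q)) * S * 4 ≤
            Real.exp ((1 - 2 * δ) * (lb * q)) * S * S :=
          mul_le_mul_of_nonneg_left e3 (by positivity)
        nlinarith
      have hx0' : 0 < x := lt_of_lt_of_le (Real.exp_pos _) hxlow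
      have hx1' : 1 < x := lt_of_lt_of_le (by
        have e1 := Real.add_one_le_exp ((1 - 2 * δ) * (lb * q))
        have e2 : δ * (lb * q) ≤ (1 - 2 * δ) * (lb * q) :=
          mul_le_mul_of_nonneg_right (by linarith) hlq.le
        linarith : (1 : ℝ) < Real.exp ((1 - 2 * δ) * (lb * q))) hxlow
      have hlogx : Real.log x ≤ lb * q := by
        rw [Real.log_le_iff_le_exp hx0', ← hbq, hx, div_le_iff₀ hs0']
        have : (0 : ℝ) < (b : ℝ) ^ q := by positivity
        nlinarith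
      have hlogx0 : 0 < Real.log x := Real.log_pos hx1'
      have h3 := hx0 x hxlow
      have h4 : (1 - δ) * x / (lb * q) ≤ (Nat.primeCounting (X / s) : ℝ) := by
        rw [hfl, div_le_iff₀ hlq]
        have : (Nat.primeCounting ⌊x⌋₊ : ℝ) * Real.log x ≤
          (Nat.primeCounting ⌊x⌋₊ : ℝ) * (lb * q) := mul_le_mul_of_nonneg_left hlogx (by positivity)
        linarith
      have h5 : (1 - δ) * (b : ℝ) ^ q * (s : ℝ)⁻¹ ≤ x := by
        rw [hx, div_eq_mul_inv]
        exact mul_le_mul_of_nonneg_right hXge (by positivity)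
      have h6 : (b : ℝ) ^ q * ((1 - δ) ^ 2 / (lb * q)) * (s : ℝ)⁻¹ ≤ (1 - δ) * x / (lb * q) := by
        have e1 : (b : ℝ) ^ q * ((1 - δ) ^ 2 / (lb * q)) * (s : ℝ)⁻¹ =
            (1 - δ) * ((1 - δ) * (b : ℝ) ^ q * (s : ℝ)⁻¹) / (lb * q) := by ring
        rw [e1]
        apply div_le_div_of_nonneg_right _ hlq.le
        exact mul_le_mul_of_nonneg_left h5 (by linarith)
      linarith
    · rw [if_neg hc, if_neg hc]
      simp
  refine le_trans ?_ (Finset.sum_le_sum hterm)
  rw [Finset.sum_sub_distrib, ← Finset.mul_sum, Finset.sum_const, nsmul_eq_mul]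
  have hcard : ((SMz q S).card : ℝ) * q ≤ S * q := by
    apply mul_le_mul_of_nonneg_right _ hq0.le
    have h5 : (SMz q S).card ≤ (Finset.Ioc 0 ⌊S⌋₊).card := by
      apply Finset.card_le_card
      intro n hn
      rw [mem_SMz hS0.le] at hn
      rw [Finset.mem_Ioc]
      exact ⟨SM_pos hn.1, (Nat.le_floor_iff hS0.le).2 hn.2⟩
    rw [Nat.card_Ioc, Nat.sub_zero] at h5
    exact le_trans (by exact_mod_cast h5) (Nat.floor_le hS0.le)
  have hV := VB_le b q hS0
  have hSm : S ^ (-(1 / 2) : ℝ) = Real.exp (-(δ * (lb * q) / 2)) := by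
    rw [hS, ← Real.exp_mul]; ring_nf
  rw [hSm] at hV
  have h7 : (b : ℝ) ^ q * ((1 - δ) ^ 2 / (lb * q)) *
      (VB b q - Real.exp (-(δ * (lb * q) / 2)) * ZZ q) ≤
      (b : ℝ) ^ q * ((1 - δ) ^ 2 / (lb * q)) * ∑ s ∈ SMz q S, copHom b s := by
    apply mul_le_mul_of_nonneg_left (by linarith)
    have : 0 ≤ (1 - δ) ^ 2 / (lb * q) := by positivity
    positivity
  have h8 : (b : ℝ) ^ q * (q * Real.exp (-((1 - δ) * (lb * q)))) = S * q := by
    rw [hbq, hS]
    have : Real.exp (lb * q) * Real.exp (-((1 - δ) * (lb * q))) = Real.exp (δ * (lb * q)) := by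
      rw [← Real.exp_add]; ring_nf
    rw [← this]; ring
  have e9 : (b : ℝ) ^ q * ((1 - δ) ^ 2 / (lb * q) *
      (VB b q - Real.exp (-(δ * (lb * q) / 2)) * ZZ q) - q * Real.exp (-((1 - δ) * (lb * q)))) =
      (b : ℝ) ^ q * ((1 - δ) ^ 2 / (lb * q)) *
      (VB b q - Real.exp (-(δ * (lb * q) / 2)) * ZZ q) -
      (b : ℝ) ^ q * (q * Real.exp (-((1 - δ) * (lb * q)))) := by ring
  rw [e9, h8]
  linarith


/-- the prime number theorem with an error term -/
lemma pi_rate : ∃ C : ℝ, 0 < C ∧ ∀ᶠ x : ℝ in atTop,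
    |(Nat.primeCounting ⌊x⌋₊ : ℝ) * Real.log x - x| ≤ C * (x / Real.log x) := by
  obtain ⟨C1, hC1, h1⟩ := Pool.Agent.H442R2.EHI.PntErrAux.thetaU 1
  obtain ⟨C2, hC2, h2⟩ := (Chebyshev.primeCounting_sub_theta_div_log_isBigO).exists_pos
  rw [Asymptotics.isBigOWith_iff] at h2
  refine ⟨C2 + (2 * C1 + 1), by positivity, ?_⟩
  filter_upwards [h2, eventually_ge_atTop 9] with x h2 hx
  have hx0 : 0 < x := by linarith
  have he2 := Real.exp_one_lt_d9
  have hl1 : 1 ≤ Real.log x := by
    rw [Real.le_log_iff_exp_le hx0]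
    linarith
  have hl0 : 0 < Real.log x := by linarith
  set A := ⌊x⌋₊ with hA
  have hA3 : 9 ≤ A := by rw [hA]; exact Nat.le_floor (by exact_mod_cast hx)
  have hAx : (A : ℝ) ≤ x := Nat.floor_le hx0.le
  have hxA : x < A + 1 := Nat.lt_floor_add_one x
  have hA0 : (9 : ℝ) ≤ A := by exact_mod_cast hA3
  have hθ : Chebyshev.theta x = Chebyshev.theta (A : ℝ) := by
    unfold Chebyshev.theta
    rw [Nat.floor_natCast]
  have h3 := h1 A (by omega)
  rw [pow_one, ← hθ] at h3
  have hlA : Real.log x / 2 ≤ Real.log A := by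
    have h1 : x ≤ (A : ℝ) ^ 2 := by nlinarith
    have h2 := Real.log_le_log hx0 h1
    rw [Real.log_pow] at h2
    push_cast at h2
    linarith
  have hlA0 : 0 < Real.log A := by linarith
  have h4 : |Chebyshev.theta x - A| ≤ 2 * C1 * (x / Real.log x) := by
    refine h3.trans ?_
    calc C1 * ((A : ℝ) / Real.log A) ≤ C1 * (x / (Real.log x / 2)) := by gcongr
      _ = _ := by field_simp
  have hxl : 1 ≤ x / Real.log x := by
    rw [one_le_div hl0]
    have := Real.log_le_sub_one_of_pos hx0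
    linarith
  have h5 : |Chebyshev.theta x - x| ≤ (2 * C1 + 1) * (x / Real.log x) := by
    have e : Chebyshev.theta x - x = (Chebyshev.theta x - A) + ((A : ℝ) - x) := by ring
    rw [e]
    refine (abs_add_le _ _).trans ?_
    have h6 : |(A : ℝ) - x| ≤ 1 := by rw [abs_le]; constructor <;> linarith
    linarith
  rw [Real.norm_eq_abs, Real.norm_of_nonneg (by positivity)] at h2
  have e : (Nat.primeCounting A : ℝ) * Real.log x - x =
      ((Nat.primeCounting A : ℝ) - Chebyshev.theta x / Real.log x) * Real.log x +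
        (Chebyshev.theta x - x) := by field_simp; ring
  rw [e]
  refine (abs_add_le _ _).trans ?_
  rw [abs_mul, abs_of_pos hl0]
  have h7 : |(Nat.primeCounting A : ℝ) - Chebyshev.theta x / Real.log x| * Real.log x ≤
      C2 * (x / Real.log x) := by
    calc _ ≤ (C2 * (x / Real.log x ^ 2)) * Real.log x := mul_le_mul_of_nonneg_right h2 hl0.le
      _ = _ := by field_simp
  linarith

set_option maxHeartbeats 4000000 in
/-- **The mean with an error term.** -/
theorem mq_rate {b : ℕ} (hb : 2 ≤ b) : ∃ K : ℝ, 0 < K ∧ ∀ᶠ q : ℕ in atTop,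
    |mq b q - Real.exp Real.eulerMascheroniConstant / Real.log b * wt q| ≤ K * (1 / q) := by
  obtain ⟨C, hC, hπ⟩ := pi_rate
  obtain ⟨X0, hX0⟩ := eventually_atTop.1 hπ
  obtain ⟨C1, hC1, hV⟩ := VV_rate
  obtain ⟨C2, hC2, hZ⟩ := ZZ_rate
  set G := Real.exp Real.eulerMascheroniConstant with hG
  have hG0 : 0 < G := Real.exp_pos _
  set a := Real.log b with ha'
  have ha : 0 < a := Real.log_pos (by exact_mod_cast hb)
  set ρ := (b.totient : ℝ) / b with hρ'
  have hρ : 0 < ρ := tot_ratio_pos hb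
  set D0 := 4 / a * (C2 + 1) with hD0
  have hD0p : 0 < D0 := by positivity
  refine ⟨(4 * D0 * G + 2 * C1) / a + 1 / (a * ρ) + 1 / ρ, by positivity, ?_⟩
  have hlin : ∀ c : ℝ, ∀ᶠ p : ℕ in atTop, c * Real.log p ≤ p := by
    intro c
    have h1 := (Real.isLittleO_log_id_atTop).bound (show (0 : ℝ) < 1 / (|c| + 1) by positivity)
    have h2 : ∀ᶠ x : ℝ in atTop, c * Real.log x ≤ x := by
      filter_upwards [h1, eventually_ge_atTop 1] with x hx hx1
      have hl := Real.log_nonneg hx1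
      rw [Real.norm_of_nonneg hl, id, Real.norm_of_nonneg (by linarith),
        one_div_mul_eq_div, le_div_iff₀ (by positivity)] at hx
      have := le_abs_self c
      nlinarith
    exact tendsto_natCast_atTop_atTop.eventually h2
  have hsq : ∀ c : ℝ, 0 < c → ∀ᶠ p : ℕ in atTop, Real.log p ^ 2 ≤ c * p := by
    intro c hc
    have h1 := (Real.isLittleO_pow_log_id_atTop (n := 2)).bound hc
    have h2 : ∀ᶠ x : ℝ in atTop, Real.log x ^ 2 ≤ c * x := by
      filter_upwards [h1, eventually_ge_atTop 1] with x hx hx1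
      rw [Real.norm_of_nonneg (by positivity), id, Real.norm_of_nonneg (by linarith)] at hx
      exact hx
    exact tendsto_natCast_atTop_atTop.eventually h2
  have e1 : ∀ᶠ q : ℕ in atTop, 8 * D0 + 1 ≤ Real.log q := log_nat_tendsto.eventually_ge_atTop _
  have e2 := hsq (D0 ^ 2 * a) (by positivity)
  have e3 := hlin (2 * C / (a * D0) + 1)
  have e4 := hsq 1 one_pos
  have e5 := hlin (4 / a)
  have e6 : ∀ᶠ q : ℕ in atTop, X0 + 1 ≤ a / 2 * (q : ℝ) :=
    (tendsto_natCast_atTop_atTop.const_mul_atTop (show 0 < a / 2 by positivity)).eventually_ge_atTop _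
  filter_upwards [e1, e2, e3, e4, e5, e6, eventually_ge_atTop (b + 3)] with q h1 h2 h3 h4 h5 h6 hq
  have hq3 : (3 : ℝ) ≤ q := by exact_mod_cast (by omega : 3 ≤ q)
  have hq0 : (0 : ℝ) < q := by linarith
  set l := Real.log q with hl
  have hl1 : 1 ≤ l := by linarith
  have hl0 : 0 < l := by linarith
  have hlq : l ≤ q := by
    have := Real.log_le_sub_one_of_pos hq0
    linarith
  set δ := D0 / l with hδ
  have hδ0 : 0 < δ := by positivity
  have hδ8 : δ ≤ 1 / 8 := by
    rw [hδ, div_le_iff₀ hl0]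
    linarith
  have hδl : δ * l = D0 := by rw [hδ]; field_simp
  have haq : 0 < a * q := by positivity
  have hql : 1 ≤ q / l := by rw [one_le_div hl0]; exact hlq
  have hδaq : δ * (a * q) = 4 * (C2 + 1) * (q / l) := by
    rw [hδ, hD0]
    field_simp
  have hX3 : 3 ≤ δ * (a * q) := by
    rw [hδaq]
    nlinarith
  have hXδ : 1 / δ ≤ δ * (a * q) := by
    rw [div_le_iff₀ hδ0]
    have : δ * (a * q) * δ = D0 ^ 2 * a * q / l ^ 2 := by
      rw [hδ]
      field_simp
    rw [this, le_div_iff₀ (by positivity)]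
    linarith
  have hlow : a / 2 * (q : ℝ) ≤ (1 - 2 * δ) * (a * q) := by nlinarith
  have hpi : ∀ x : ℝ, Real.exp ((1 - 2 * δ) * (a * q)) ≤ x →
      |(Nat.primeCounting ⌊x⌋₊ : ℝ) * Real.log x - x| < δ * x := by
    intro x hx
    have h7 : Real.exp (a / 2 * q) ≤ x := (Real.exp_le_exp.2 hlow).trans hx
    have hx0 : 0 < x := lt_of_lt_of_le (Real.exp_pos _) h7
    have h8 : X0 ≤ x := by
      have := Real.add_one_le_exp (a / 2 * q)
      linarith
    have h9 : a / 2 * q ≤ Real.log x := by rw [Real.le_log_iff_exp_le hx0]; exact h7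
    refine (hX0 x h8).trans_lt ?_
    have h10 : C * (x / Real.log x) ≤ C * (x / (a / 2 * q)) := by gcongr
    refine h10.trans_lt ?_
    have h11 : C * (x / (a / 2 * q)) = (2 * C / (a * q)) * x := by field_simp
    rw [h11]
    refine mul_lt_mul_of_pos_right ?_ hx0
    rw [hδ, div_lt_div_iff₀ haq hl0]
    have h12 : 2 * C / (a * D0) * l < q := by nlinarith
    have h13 : 2 * C * l = (2 * C / (a * D0) * l) * (D0 * a) := by field_simp
    rw [h13]
    calc (2 * C / (a * D0) * l) * (D0 * a) < q * (D0 * a) :=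
          mul_lt_mul_of_pos_right h12 (by positivity)
      _ = D0 * (a * q) := by ring
  have hup := AA_up hb hδ0 (by linarith) (q := q) (by omega) hX3 (fun x hx => by
    have := (abs_lt.1 (hpi x hx)).2
    linarith)
  have hlo := AA_lo hb hδ0 (by linarith) (q := q) (by omega) hX3 hXδ (fun x hx => by
    have := (abs_lt.1 (hpi x hx)).1
    linarith)
  rw [← ha'] at hup hlo
  rw [VB_eq hb (by omega)] at hup hlo
  obtain ⟨hV1, hV2⟩ := abs_le.1 (hV q (by omega))
  have hE : Real.exp (-(δ * (a * q) / 2)) * ZZ q ≤ 1 / q := by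
    have hZq := hZ q (by omega)
    calc Real.exp (-(δ * (a * q) / 2)) * ZZ q ≤
          Real.exp (-(2 * (C2 + 1) * (q / l))) * Real.exp (C2 * (q / l)) := by
            refine mul_le_mul (Real.exp_le_exp.2 ?_) hZq (ZZ_nonneg q) (Real.exp_pos _).le
            rw [hδaq]
            linarith
      _ = Real.exp (-((C2 + 2) * (q / l))) := by rw [← Real.exp_add]; congr 1; ring
      _ ≤ Real.exp (-l) := by
          refine Real.exp_le_exp.2 (neg_le_neg ?_)
          have h7 : l ≤ q / l := by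
            rw [le_div_iff₀ hl0, ← sq]
            linarith
          have h8 : 0 < q / l := by positivity
          nlinarith
      _ = 1 / q := by rw [Real.exp_neg, hl, Real.exp_log hq0, one_div]
  have hE0 : 0 ≤ Real.exp (-(δ * (a * q) / 2)) * ZZ q := mul_nonneg (Real.exp_pos _).le (ZZ_nonneg q)
  have hF : (q : ℝ) * Real.exp (-((1 - δ) * (a * q))) ≤ 1 / q := by
    have h7 : Real.exp (-((1 - δ) * (a * q))) ≤ Real.exp (-(2 * l)) := by
      refine Real.exp_le_exp.2 (neg_le_neg ?_)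
      have h8 : 4 / a * l ≤ q := h5
      rw [div_mul_eq_mul_div, div_le_iff₀ ha] at h8
      nlinarith
    have h8 : Real.exp (-(2 * l)) = 1 / (q : ℝ) ^ 2 := by
      rw [show -(2 * l) = -l + -l by ring, Real.exp_add, Real.exp_neg, hl, Real.exp_log hq0]
      field_simp
    rw [h8] at h7
    calc (q : ℝ) * Real.exp (-((1 - δ) * (a * q))) ≤ q * (1 / (q : ℝ) ^ 2) :=
          mul_le_mul_of_nonneg_left h7 hq0.le
      _ = 1 / q := by field_simp
  have hF0 : 0 ≤ (q : ℝ) * Real.exp (-((1 - δ) * (a * q))) := by positivity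
  have hbq : (0 : ℝ) < (b : ℝ) ^ q := by
    have : (0 : ℝ) < b := by exact_mod_cast (by omega : 0 < b)
    positivity
  have hmq : mq b q * ((b : ℝ) ^ q * ρ) = AA b q := by
    unfold mq
    rw [tot_pow hb (by omega), ← hρ']
    field_simp
  set E := Real.exp (-(δ * (a * q) / 2)) * ZZ q with hEd
  set F := (q : ℝ) * Real.exp (-((1 - δ) * (a * q))) with hFd
  set m := mq b q with hm
  have hup' : m * ρ ≤ (1 + δ) / ((1 - 2 * δ) * (a * q)) * (VV q * ρ) + E := by
    have h7 : (b : ℝ) ^ q * (m * ρ) ≤ (b : ℝ) ^ q *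
        ((1 + δ) / ((1 - 2 * δ) * (a * q)) * (VV q * ρ) + E) := by
      refine le_trans (le_of_eq ?_) hup
      rw [← hmq]; ring
    exact le_of_mul_le_mul_left h7 hbq
  have hlo' : (1 - δ) ^ 2 / (a * q) * (VV q * ρ - E) - F ≤ m * ρ := by
    have h7 : (b : ℝ) ^ q * ((1 - δ) ^ 2 / (a * q) * (VV q * ρ - E) - F) ≤ (b : ℝ) ^ q * (m * ρ) := by
      refine hlo.trans (le_of_eq ?_)
      rw [← hmq]; ring
    exact le_of_mul_le_mul_left h7 hbq
  have hVV0 := VV_nonneg q
  have h1q : 0 < 1 / (q : ℝ) := by positivity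
  have hinv : 0 < 1 / (a * q) := by positivity
  -- upper bound
  have hU : (1 + δ) / ((1 - 2 * δ) * (a * q)) ≤ (1 + 4 * δ) * (1 / (a * q)) := by
    rw [div_le_iff₀ (mul_pos (by linarith) haq)]
    have : (1 + 4 * δ) * (1 / (a * q)) * ((1 - 2 * δ) * (a * q)) = (1 + 4 * δ) * (1 - 2 * δ) := by
      field_simp
    rw [this]
    nlinarith
  have hu1 : m ≤ (1 + 4 * δ) * (1 / (a * q)) * VV q + 1 / ρ * (1 / q) := by
    have h7 : m * ρ ≤ ((1 + 4 * δ) * (1 / (a * q)) * VV q + 1 / ρ * (1 / q)) * ρ := by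
      have h8 : (1 + δ) / ((1 - 2 * δ) * (a * q)) * (VV q * ρ) ≤
          (1 + 4 * δ) * (1 / (a * q)) * (VV q * ρ) := mul_le_mul_of_nonneg_right hU (by positivity)
      have h9 : ((1 + 4 * δ) * (1 / (a * q)) * VV q + 1 / ρ * (1 / q)) * ρ =
          (1 + 4 * δ) * (1 / (a * q)) * (VV q * ρ) + 1 / q := by field_simp
      rw [h9]
      linarith
    exact le_of_mul_le_mul_right h7 hρ
  have hu2 : (1 + 4 * δ) * (1 / (a * q)) * VV q ≤
      G / a * (l / q) + (4 * D0 * G + 2 * C1) / a * (1 / q) := by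
    have h7 : (1 + 4 * δ) * (1 / (a * q)) * VV q ≤ (1 + 4 * δ) * (1 / (a * q)) * (G * l + C1) :=
      mul_le_mul_of_nonneg_left (by linarith) (by positivity)
    have h8 : (1 + 4 * δ) * (1 / (a * q)) * (G * l + C1) =
        G / a * (l / q) + (4 * (δ * l) * G + (1 + 4 * δ) * C1) * (1 / (a * q)) := by
      field_simp
      ring
    rw [hδl] at h8
    have h9 : (4 * D0 * G + (1 + 4 * δ) * C1) * (1 / (a * q)) ≤ (4 * D0 * G + 2 * C1) * (1 / (a * q)) := by
      refine mul_le_mul_of_nonneg_right ?_ hinv.le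
      nlinarith
    have h10 : (4 * D0 * G + 2 * C1) * (1 / (a * q)) = (4 * D0 * G + 2 * C1) / a * (1 / q) := by
      field_simp
    linarith
  -- lower bound
  have hl2 : (1 - 2 * δ) * (1 / (a * q)) * (G * l - C1) - 1 / (a * ρ) * (1 / q) - 1 / ρ * (1 / q) ≤ m := by
    have h7 : ((1 - 2 * δ) * (1 / (a * q)) * (G * l - C1) - 1 / (a * ρ) * (1 / q) -
        1 / ρ * (1 / q)) * ρ ≤ m * ρ := by
      have h8 : (1 - 2 * δ) * (1 / (a * q)) * ((G * l - C1) * ρ) ≤
          (1 - δ) ^ 2 / (a * q) * (VV q * ρ) := by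
        have h9 : (1 - 2 * δ) * (1 / (a * q)) * ((G * l - C1) * ρ) ≤
            (1 - 2 * δ) * (1 / (a * q)) * (VV q * ρ) := by
          refine mul_le_mul_of_nonneg_left ?_ (mul_nonneg (by linarith) hinv.le)
          exact mul_le_mul_of_nonneg_right (by linarith) hρ.le
        have h10 : (1 - 2 * δ) * (1 / (a * q)) * (VV q * ρ) ≤
            (1 - δ) ^ 2 * (1 / (a * q)) * (VV q * ρ) := by
          refine mul_le_mul_of_nonneg_right ?_ (by positivity)
          refine mul_le_mul_of_nonneg_right ?_ hinv.le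
          nlinarith [sq_nonneg δ]
        have h11 : (1 - δ) ^ 2 / (a * q) * (VV q * ρ) =
            (1 - δ) ^ 2 * (1 / (a * q)) * (VV q * ρ) := by ring
        rw [h11]
        exact h9.trans h10
      have h12 : (1 - δ) ^ 2 / (a * q) * E ≤ 1 / a * (1 / q) := by
        have h13 : (1 - δ) ^ 2 / (a * q) ≤ 1 / (a * q) := by
          refine div_le_div_of_nonneg_right ?_ haq.le
          nlinarith
        have h14 : 1 / (a * q) * (1 / q) ≤ 1 / a * (1 / q) := by
          refine mul_le_mul_of_nonneg_right ?_ h1q.le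
          refine one_div_le_one_div_of_le ha ?_
          nlinarith
        calc (1 - δ) ^ 2 / (a * q) * E ≤ 1 / (a * q) * (1 / q) :=
              mul_le_mul h13 hE hE0 hinv.le
          _ ≤ _ := h14
      have h15 : ((1 - 2 * δ) * (1 / (a * q)) * (G * l - C1) - 1 / (a * ρ) * (1 / q) -
          1 / ρ * (1 / q)) * ρ = (1 - 2 * δ) * (1 / (a * q)) * ((G * l - C1) * ρ) -
            1 / a * (1 / q) - 1 / q := by
        field_simp
      rw [h15]
      have h16 : (1 - δ) ^ 2 / (a * q) * (VV q * ρ - E) - F =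
          (1 - δ) ^ 2 / (a * q) * (VV q * ρ) - (1 - δ) ^ 2 / (a * q) * E - F := by ring
      rw [h16] at hlo'
      linarith
    exact le_of_mul_le_mul_right h7 hρ
  have hl3 : G / a * (l / q) - (4 * D0 * G + 2 * C1) / a * (1 / q) ≤
      (1 - 2 * δ) * (1 / (a * q)) * (G * l - C1) := by
    have h8 : (1 - 2 * δ) * (1 / (a * q)) * (G * l - C1) =
        G / a * (l / q) - (2 * (δ * l) * G + (1 - 2 * δ) * C1) * (1 / (a * q)) := by
      field_simp
      ring
    rw [hδl] at h8
    have h9 : (2 * D0 * G + (1 - 2 * δ) * C1) * (1 / (a * q)) ≤ (4 * D0 * G + 2 * C1) * (1 / (a * q)) := by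
      refine mul_le_mul_of_nonneg_right ?_ hinv.le
      nlinarith [mul_pos hD0p hG0, mul_pos hδ0 hC1]
    have h10 : (4 * D0 * G + 2 * C1) * (1 / (a * q)) = (4 * D0 * G + 2 * C1) / a * (1 / q) := by
      field_simp
    linarith
  have hK : ((4 * D0 * G + 2 * C1) / a + 1 / (a * ρ) + 1 / ρ) * (1 / (q : ℝ)) =
      (4 * D0 * G + 2 * C1) / a * (1 / q) + 1 / (a * ρ) * (1 / q) + 1 / ρ * (1 / q) := by ring
  have hw : wt q = l / q := rfl
  have hp1 : 0 < 1 / (a * ρ) * (1 / (q : ℝ)) := by positivity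
  rw [hK, hw, abs_le]
  constructor <;> linarith

end Pool.Agent.V1213.TA
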